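import Pool.Agent.Helper59.Wav.Defs

/-!
# Fourier transform of integrable square integrable functions and transfer of bases
-/

open MeasureTheory
open scoped FourierTransform RealInnerProductSpace Matrix

noncomputable section

namespace Wav

/-- Module F. The `L²` Fourier transform of an integrable function. -/
theorem fourier_toLp {n : ℕ} {f : E n → ℂ} (h1 : Integrable f) (h2 : MemLp f 2 volume) :
    (𝓕 (h2.toLp f) : Lp ℂ 2 (volume : Measure (E n))) =ᵐ[volume] 𝓕 f := by
  have hcont : Continuous (𝓕 f) := by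
    have := VectorFourier.fourierIntegral_continuous (μ := (volume : Measure (E n)))
      Real.continuous_fourierChar (L := innerₗ (E n)) continuous_inner h1
    exact this
  apply ae_eq_of_integral_contDiff_smul_eq
  · exact (Lp.memLp _).locallyIntegrable (by norm_num)
  · exact hcont.locallyIntegrable
  · intro g hg hgc
    have hg1 : HasCompactSupport (Complex.ofRealCLM ∘ g) := hgc.comp_left rfl
    have hg2 : ContDiff ℝ (⊤ : ℕ∞) (Complex.ofRealCLM ∘ g) := by fun_prop
    set G : SchwartzMap (E n) ℂ := hg1.toSchwartzMap hg2 with hG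
    have hGx : ∀ x, G x = (g x : ℂ) := fun x => rfl
    have e1 : ∫ x, g x • (𝓕 (h2.toLp f) : Lp ℂ 2 (volume : Measure (E n))) x =
        ((𝓕 (h2.toLp f) : Lp ℂ 2 (volume : Measure (E n))) : TemperedDistribution (E n) ℂ) G := by
      rw [Lp.toTemperedDistribution_apply]
      rfl
    rw [e1, ← Lp.fourier_toTemperedDistribution_eq, TemperedDistribution.fourier_apply,
      Lp.toTemperedDistribution_apply]
    have e2 : ∫ x, (𝓕 G) x • (h2.toLp f : E n → ℂ) x = ∫ x, (𝓕 (G : E n → ℂ)) x • f x := by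
      apply integral_congr_ae
      filter_upwards [h2.coeFn_toLp] with x hx
      rw [hx]
      rfl
    rw [e2]
    have e3 := VectorFourier.integral_fourierIntegral_smul_eq_flip (L := innerₗ (E n))
      (μ := (volume : Measure (E n))) (ν := (volume : Measure (E n)))
      Real.continuous_fourierChar continuous_inner G.integrable h1
    have e4 : (innerₗ (E n)).flip = innerₗ (E n) := by
      ext x y
      simp
    rw [e4] at e3
    refine e3.trans ?_
    rfl

theorem WellLocalized.integrable {n : ℕ} {N : ℝ} {ψ : E n → ℂ} (h : WellLocalized N ψ)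
    (hN : (n : ℝ) < N) : Integrable ψ := by
  obtain ⟨C, R, hC⟩ := h.decay
  set R' := max R 1 with hR'
  have hint : Integrable (fun x : E n => (1 + ‖x‖) ^ (-N)) :=
    integrable_one_add_norm (by simpa using hN)
  have hN0 : 0 ≤ N := le_trans (Nat.cast_nonneg n) hN.le
  have hball : IntegrableOn ψ (Metric.closedBall (0 : E n) R') := by
    have : IsFiniteMeasure ((volume : Measure (E n)).restrict (Metric.closedBall (0 : E n) R')) :=
      ⟨by rw [Measure.restrict_apply_univ]; exact measure_closedBall_lt_top⟩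
    exact (h.memLp.restrict _).integrable (by norm_num)
  have hout : IntegrableOn ψ (Metric.closedBall (0 : E n) R')ᶜ := by
    refine Integrable.mono' (g := fun x : E n => |C| * 2 ^ N * (1 + ‖x‖) ^ (-N)) ?_ ?_ ?_
    · exact (hint.const_mul _).integrableOn
    · exact h.memLp.aestronglyMeasurable.restrict
    · rw [ae_restrict_iff' Metric.isClosed_closedBall.measurableSet.compl]
      filter_upwards [hC] with x hx hxm
      have hx1 : R' < ‖x‖ := by
        simpa [Metric.mem_closedBall, dist_zero_right] using hxm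
      have hR1 : R ≤ ‖x‖ := (le_max_left R 1).trans hx1.le
      have h1 : 1 ≤ ‖x‖ := (le_max_right R 1).trans hx1.le
      refine (hx hR1).trans ?_
      have hxp : 0 < ‖x‖ := by linarith
      have e1 : ‖x‖ ^ (-N) ≤ 2 ^ N * (1 + ‖x‖) ^ (-N) := by
        rw [Real.rpow_neg hxp.le, Real.rpow_neg (by linarith), ← div_eq_mul_inv,
          ← Real.div_rpow (by norm_num) (by linarith), ← Real.inv_rpow hxp.le]
        apply Real.rpow_le_rpow (by positivity) _ hN0
        rw [inv_eq_one_div, div_le_div_iff₀ hxp (by linarith)]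
        linarith
      calc C * ‖x‖ ^ (-N) ≤ |C| * (2 ^ N * (1 + ‖x‖) ^ (-N)) := by
            have := le_abs_self C
            have h0 : 0 ≤ ‖x‖ ^ (-N) := by positivity
            exact mul_le_mul this e1 h0 (abs_nonneg _)
        _ = _ := by ring
  rw [← integrableOn_univ, ← Set.union_compl_self (Metric.closedBall (0 : E n) R')]
  exact hball.union hout

/-! ### change of variables -/

theorem act_eq {n : ℕ} (M : Matrix (Fin n) (Fin n) ℝ) :
    (act M : E n → E n) = (Matrix.toEuclideanLin M : E n →ₗ[ℝ] E n) := by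
  funext x
  rfl

theorem det_toEuclideanLin {n : ℕ} (M : Matrix (Fin n) (Fin n) ℝ) :
    LinearMap.det (Matrix.toEuclideanLin M : E n →ₗ[ℝ] E n) = M.det := by
  have h : (Matrix.toEuclideanLin M : E n →ₗ[ℝ] E n) =
      Matrix.toLin (PiLp.basisFun 2 ℝ (Fin n)) (PiLp.basisFun 2 ℝ (Fin n)) M := by
    rw [← Matrix.toLpLin_eq_toLin]
  rw [h]
  exact LinearMap.det_toLin _ _

theorem act_mul {n : ℕ} (M K : Matrix (Fin n) (Fin n) ℝ) (x : E n) :
    act (M * K) x = act M (act K x) := by
  simp [act, Matrix.mulVec_mulVec]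

theorem act_one {n : ℕ} (x : E n) : act (1 : Matrix (Fin n) (Fin n) ℝ) x = x := by
  simp [act]

theorem act_add {n : ℕ} (M : Matrix (Fin n) (Fin n) ℝ) (x y : E n) :
    act M (x + y) = act M x + act M y := by
  rw [act_eq]; exact map_add _ _ _

theorem act_sub {n : ℕ} (M : Matrix (Fin n) (Fin n) ℝ) (x y : E n) :
    act M (x - y) = act M x - act M y := by
  rw [act_eq]; exact map_sub _ _ _

theorem inner_act {n : ℕ} (M : Matrix (Fin n) (Fin n) ℝ) (x y : E n) :
    ⟪act M x, y⟫ = ⟪x, act Mᵀ y⟫ := by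
  simp only [act, EuclideanSpace.inner_eq_star_dotProduct, star_trivial]
  rw [Matrix.mulVec_transpose, dotProduct_comm, ← Matrix.dotProduct_mulVec, dotProduct_comm]

theorem map_act {n : ℕ} {M : Matrix (Fin n) (Fin n) ℝ} (hM : M.det ≠ 0) :
    Measure.map (act M) (volume : Measure (E n)) =
      ENNReal.ofReal |(M.det)⁻¹| • (volume : Measure (E n)) := by
  have h := Measure.map_linearMap_addHaar_eq_smul_addHaar (volume : Measure (E n))
    (f := (Matrix.toEuclideanLin M : E n →ₗ[ℝ] E n)) (by rwa [det_toEuclideanLin])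
  rw [det_toEuclideanLin] at h
  exact h

theorem act_inj {n : ℕ} {M : Matrix (Fin n) (Fin n) ℝ} (hM : M.det ≠ 0) :
    Function.Injective (act M : E n → E n) := by
  intro x y h
  have hu : IsUnit M.det := isUnit_iff_ne_zero.2 hM
  have h1 : act M⁻¹ (act M x) = act M⁻¹ (act M y) := by rw [h]
  rwa [← act_mul, ← act_mul, Matrix.nonsing_inv_mul _ hu, act_one, act_one] at h1

theorem act_emb {n : ℕ} {M : Matrix (Fin n) (Fin n) ℝ} (hM : M.det ≠ 0) :
    MeasurableEmbedding (act M : E n → E n) := by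
  have h := LinearMap.isClosedEmbedding_of_injective
    (f := (Matrix.toEuclideanLin M : E n →ₗ[ℝ] E n))
    (LinearMap.ker_eq_bot.2 (by rw [← act_eq]; exact act_inj hM))
  rw [← act_eq] at h
  exact h.measurableEmbedding

theorem integral_act {n : ℕ} {M : Matrix (Fin n) (Fin n) ℝ} (hM : M.det ≠ 0) (g : E n → ℂ) :
    ∫ x, g (act M x) = ((|M.det|⁻¹ : ℝ) : ℂ) * ∫ y, g y := by
  rw [← (act_emb hM).integral_map, map_act hM, integral_smul_measure,
    ENNReal.toReal_ofReal (abs_nonneg _), abs_inv, Complex.real_smul]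

theorem affine_memLp {n : ℕ} {A : Matrix (Fin n) (Fin n) ℝ} (hA : A.det ≠ 0) {ψ : E n → ℂ}
    {p : ENNReal} (h : MemLp ψ p volume) (j : ℤ) (k : Fin n → ℤ) :
    MemLp (affine A ψ j k) p volume := by
  have hu : IsUnit A.det := isUnit_iff_ne_zero.2 hA
  have hj : (A ^ j).det ≠ 0 := (hu.det_zpow j).ne_zero
  unfold affine
  apply MemLp.const_mul
  have h1 : MemLp (fun y : E n => ψ (y - ivec k)) p volume :=
    h.comp_measurePreserving (measurePreserving_sub_right volume (ivec k))
  have h2 : MemLp (fun y : E n => ψ (y - ivec k)) p (Measure.map (act (A ^ j)) volume) := by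
    rw [map_act hj]
    exact h1.smul_measure ENNReal.ofReal_ne_top
  exact (act_emb hj).memLp_map_measure_iff.1 h2

theorem det_zpow' {n : ℕ} {A : Matrix (Fin n) (Fin n) ℝ} (hA : A.det ≠ 0) (j : ℤ) :
    (A ^ j).det = A.det ^ j := by
  have hu : IsUnit A.det := isUnit_iff_ne_zero.2 hA
  have hp : ∀ m : ℕ, (A ^ (m : ℤ)).det = A.det ^ (m : ℤ) := by
    intro m
    rw [zpow_natCast, zpow_natCast, Matrix.det_pow]
  rcases Int.eq_nat_or_neg j with ⟨m, rfl | rfl⟩
  · exact hp m
  · have h1 : (A ^ (-(m : ℤ))).det * (A ^ (m : ℤ)).det = 1 := by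
      rw [← Matrix.det_mul, Matrix.zpow_neg_mul_zpow_self _ hu, Matrix.det_one]
    rw [hp m] at h1
    rw [zpow_neg, eq_inv_of_mul_eq_one_left h1]

theorem fourier_affine {n : ℕ} {A : Matrix (Fin n) (Fin n) ℝ} (hA : A.det ≠ 0) (ψ : E n → ℂ)
    (j : ℤ) (k : Fin n → ℤ) : 𝓕 (affine A ψ j k) = faff A (𝓕 ψ) j k := by
  have hu : IsUnit A.det := isUnit_iff_ne_zero.2 hA
  have hj : (A ^ j).det ≠ 0 := (hu.det_zpow j).ne_zero
  have hD : 0 < |A.det| := abs_pos.2 hA
  funext ξ
  set c : ℂ := ((|A.det| ^ ((j : ℝ) / 2) : ℝ) : ℂ) with hc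
  set g : E n → ℂ := fun y => Complex.exp (↑(-2 * Real.pi * ⟪y - ivec k, act (A ^ (-j))ᵀ ξ⟫) *
    Complex.I) * ψ (y - ivec k) with hg
  set B : ℂ := ee (-⟪act (A ^ (-j)) (ivec k), ξ⟫) with hB
  have hinv : ∀ x : E n, act (A ^ (-j)) (act (A ^ j) x) = x := by
    intro x
    rw [← act_mul, Matrix.zpow_neg_mul_zpow_self _ hu, act_one]
  have key : ∀ x : E n, Complex.exp (↑(-2 * Real.pi * ⟪x, ξ⟫) * Complex.I) • affine A ψ j k x =
      c * B * g (act (A ^ j) x) := by
    intro x
    rw [hg, hB, affine, ee]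
    simp only [smul_eq_mul]
    have e1 : ⟪x, ξ⟫ = ⟪act (A ^ j) x - ivec k, act (A ^ (-j))ᵀ ξ⟫ +
        ⟪act (A ^ (-j)) (ivec k), ξ⟫ := by
      rw [← inner_act, act_sub, hinv, inner_sub_left]
      ring
    have e2 : Complex.exp (↑(-2 * Real.pi * ⟪x, ξ⟫) * Complex.I) =
        Complex.exp (2 * Real.pi * Complex.I * (-⟪act (A ^ (-j)) (ivec k), ξ⟫ : ℝ)) *
        Complex.exp (↑(-2 * Real.pi * ⟪act (A ^ j) x - ivec k, act (A ^ (-j))ᵀ ξ⟫) *
          Complex.I) := by
      rw [← Complex.exp_add, e1]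
      congr 1
      push_cast
      ring
    rw [e2]
    ring
  rw [Real.fourier_eq']
  simp only [key]
  rw [integral_const_mul, integral_act hj, hg]
  rw [integral_sub_right_eq_self (fun y : E n => Complex.exp (↑(-2 * Real.pi *
    ⟪y, act (A ^ (-j))ᵀ ξ⟫) * Complex.I) * ψ y) (ivec k)]
  rw [faff, Real.fourier_eq', ← hB, det_zpow' hA, abs_zpow]
  simp only [smul_eq_mul]
  have e3 : c * ((|A.det| ^ j)⁻¹ : ℝ) = ((|A.det| ^ (-(j : ℝ) / 2) : ℝ) : ℂ) := by
    rw [hc, ← Complex.ofReal_mul, ← Real.rpow_intCast, ← Real.rpow_neg hD.le,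
      ← Real.rpow_add hD]
    congr 2
    ring
  rw [← e3]
  ring

/-- Transfer of the basis to the Fourier side and back. -/
theorem transfer {n L : ℕ} {A : Matrix (Fin n) (Fin n) ℝ} (hA : A.det ≠ 0)
    {ψ : Fin L → E n → ℂ} (h1 : ∀ l, Integrable (ψ l)) (h2 : ∀ l, MemLp (ψ l) 2 volume) :
    IsONWavelet A ψ ↔
      ∃ b : HilbertBasis (Fin L × ℤ × (Fin n → ℤ)) ℂ (Lp ℂ 2 (volume : Measure (E n))),
        ∀ l j k, (b (l, j, k) : E n → ℂ) =ᵐ[volume] faff A (𝓕 (ψ l)) j k := by
  have hm2 : ∀ l j k, MemLp (affine A (ψ l) j k) 2 volume := fun l j k =>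
    affine_memLp hA (h2 l) j k
  have hm1 : ∀ l j k, Integrable (affine A (ψ l) j k) := fun l j k => by
    rw [← memLp_one_iff_integrable]
    exact affine_memLp hA (memLp_one_iff_integrable.2 (h1 l)) j k
  have hF : ∀ l j k, (𝓕 ((hm2 l j k).toLp _) : Lp ℂ 2 (volume : Measure (E n))) =ᵐ[volume]
      faff A (𝓕 (ψ l)) j k := by
    intro l j k
    have := fourier_toLp (hm1 l j k) (hm2 l j k)
    rwa [fourier_affine hA] at this
  set Φ := Lp.fourierTransformₗᵢ (E n) ℂ with hΦ
  constructor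
  · rintro ⟨b, hb⟩
    refine ⟨HilbertBasis.ofRepr (Φ.symm.trans b.repr), fun l j k => ?_⟩
    have e : (HilbertBasis.ofRepr (Φ.symm.trans b.repr)) (l, j, k) = Φ (b (l, j, k)) := by
      rfl
    rw [e]
    have e2 : b (l, j, k) = (hm2 l j k).toLp _ := by
      apply Lp.ext
      exact (hb l j k).trans (hm2 l j k).coeFn_toLp.symm
    rw [e2]
    exact hF l j k
  · rintro ⟨b, hb⟩
    refine ⟨HilbertBasis.ofRepr (Φ.trans b.repr), fun l j k => ?_⟩
    have e : (HilbertBasis.ofRepr (Φ.trans b.repr)) (l, j, k) = Φ.symm (b (l, j, k)) := by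
      rfl
    rw [e]
    have e2 : b (l, j, k) = Φ ((hm2 l j k).toLp _) := by
      apply Lp.ext
      exact (hb l j k).trans (hF l j k).symm
    rw [e2, LinearIsometryEquiv.symm_apply_apply]
    exact (hm2 l j k).coeFn_toLp

end Wav
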